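import Pool.Agent.V7H42.PD.Defs

/-!
# Monotone nondeterministic branching programs for pushdown automata
-/

set_option autoImplicit false

namespace Pool.Agent.V7H47.MN

open Pool.Agent.V7H42.PD

/-- Monotone acceptance. The input is a word with partial information, `W i` is the set of the
letters which are allowed at the place `i`; so the input variables are the bits `a ∈ W i`. A test
whether the letter at the place `i` belongs to `X` is passed if some allowed letter belongs to `X`
(it is an OR of input variables). The program accepts if all tests on some path from the source to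
the sink are passed. -/
def MAccepts {ι A S : Type} (B : NBP ι A S) (W : ι → Set A) : Prop :=
  ∃ l, B.Walk B.source B.sink l ∧ ∀ x ∈ l, ∃ a ∈ W x.1, a ∈ x.2

/-- The branching program computes, as a monotone program, the monotone function given by the
automaton and the length `N`: it accepts `W` if and only if the automaton accepts some word of length
`N` whose letters are allowed by `W`. (Nothing is required if there is no word whose letters are
allowed by `W`, that is, if some `W i` is empty.) -/
def MRecognizes {A Q Γ S : Type} {N : ℕ} (B : NBP (Fin N) A S) (M : DPDA A Q Γ) : Prop :=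
  ∀ W : Fin N → Set A, (∀ i, (W i).Nonempty) →
    (MAccepts B W ↔ ∃ w : Fin N → A, (∀ i, w i ∈ W i) ∧ M.Accepts (List.ofFn w))

/-- A one-way nondeterministic pushdown automaton without `ε`-moves. `step q x a` is the set of the
possible actions in the state `q` with the top symbol `x` of the stack (`none` if the stack is empty)
when the letter `a` is read: a new state and a list of symbols which replaces the top symbol. -/
structure NPDA (A Q Γ : Type) where
  start : Q
  accept : Set Q
  step : Q → Option Γ → A → Set (Q × List Γ)

/-- The possible configurations after reading a letter, starting from a set of configurations. -/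
def NPDA.next {A Q Γ : Type} (P : NPDA A Q Γ) (C : Set (Q × List Γ)) (a : A) : Set (Q × List Γ) :=
  {c | ∃ q s, (q, s) ∈ C ∧ ((s = [] ∧ c ∈ P.step q none a) ∨
    ∃ x s', s = x :: s' ∧ ∃ r ∈ P.step q (some x) a, c = (r.1, r.2 ++ s'))}

/-- The automaton accepts the word: some run ends in an accepting state. -/
def NPDA.Accepts {A Q Γ : Type} (P : NPDA A Q Γ) (w : List A) : Prop :=
  ∃ q s, (q, s) ∈ w.foldl P.next {(P.start, [])} ∧ q ∈ P.accept

/-- The nondeterministic automaton with the alphabet `Set A`, which guesses a letter of every set it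
reads and simulates the deterministic automaton `M`. -/
def guess {A Q Γ : Type} (M : DPDA A Q Γ) : NPDA (Set A) Q Γ where
  start := M.start
  accept := M.accept
  step := fun q x W => {r | ∃ a ∈ W, M.step q x a = some r}

theorem mem_foldl_guess {A Q Γ : Type} (M : DPDA A Q Γ) (W : List (Set A)) :
    ∀ (C : Set (Q × List Γ)) (c : Q × List Γ),
    c ∈ W.foldl (guess M).next C ↔
      ∃ w : List A, List.Forall₂ (fun a X => a ∈ X) w W ∧ ∃ c₀ ∈ C,
        w.foldl M.next (some c₀) = some c := by
  induction W with
  | nil =>
    intro C c
    constructor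
    · intro h
      exact ⟨[], .nil, c, h, rfl⟩
    · rintro ⟨w, h1, c₀, h2, h3⟩
      cases h1
      simp only [List.foldl_nil, Option.some.injEq] at h3
      rw [← h3]
      exact h2
  | cons X W ih =>
    intro C c
    rw [List.foldl_cons, ih]
    constructor
    · rintro ⟨w, h1, c₁, ⟨q, s, h2, h3⟩, h4⟩
      rcases h3 with ⟨rfl, a, ha, h5⟩ | ⟨x, s', rfl, r, ⟨a, ha, h5⟩, h6⟩
      · refine ⟨a :: w, .cons ha h1, (q, []), h2, ?_⟩
        rw [List.foldl_cons]
        have : M.next (some (q, [])) a = some c₁ := h5
        rw [this]
        exact h4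
      · refine ⟨a :: w, .cons ha h1, (q, x :: s'), h2, ?_⟩
        rw [List.foldl_cons]
        have : M.next (some (q, x :: s')) a = some c₁ := by
          show (M.step q (some x) a).map _ = _
          rw [h5, h6]
          rfl
        rw [this]
        exact h4
    · rintro ⟨w, h1, ⟨q, s⟩, h2, h3⟩
      cases h1 with
      | @cons a _ w _ ha h1 =>
        rw [List.foldl_cons] at h3
        rcases hnext : M.next (some (q, s)) a with _ | c₁
        · rw [hnext] at h3
          have h4 : ∀ w : List A, w.foldl M.next none = none := by
            intro w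
            induction w with
            | nil => rfl
            | cons b w ih => exact ih
          rw [h4] at h3
          exact absurd h3 (by simp)
        · rw [hnext] at h3
          refine ⟨w, h1, c₁, ⟨q, s, h2, ?_⟩, h3⟩
          cases s with
          | nil => exact Or.inl ⟨rfl, a, ha, hnext⟩
          | cons x s' =>
            right
            have h5 : (M.step q (some x) a).map (fun r => (r.1, r.2 ++ s')) = some c₁ := hnext
            rw [Option.map_eq_some_iff] at h5
            obtain ⟨r, h6, h7⟩ := h5
            exact ⟨x, s', rfl, r, ⟨a, ha, h6⟩, h7.symm⟩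

/-- The words with partial information which allow an accepted word are the language of a
nondeterministic pushdown automaton. -/
theorem guess_accepts {A Q Γ : Type} (M : DPDA A Q Γ) (W : List (Set A)) :
    (guess M).Accepts W ↔ ∃ w : List A, List.Forall₂ (fun a X => a ∈ X) w W ∧ M.Accepts w := by
  constructor
  · rintro ⟨q, s, h1, h2⟩
    obtain ⟨w, h3, c₀, h4, h5⟩ := (mem_foldl_guess M W _ _).1 h1
    have : c₀ = (M.start, []) := h4
    subst this
    exact ⟨w, h3, q, s, h5, h2⟩
  · rintro ⟨w, h3, q, s, h5, h2⟩
    exact ⟨q, s, (mem_foldl_guess M W _ _).2 ⟨w, h3, (M.start, []), rfl, h5⟩, h2⟩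

theorem guess_accepts_ofFn {A Q Γ : Type} (M : DPDA A Q Γ) {N : ℕ} (W : Fin N → Set A) :
    (guess M).Accepts (List.ofFn W) ↔
      ∃ w : Fin N → A, (∀ i, w i ∈ W i) ∧ M.Accepts (List.ofFn w) := by
  rw [guess_accepts]
  constructor
  · rintro ⟨w, h1, h2⟩
    have hlen : w.length = N := by rw [h1.length_eq, List.length_ofFn]
    subst hlen
    refine ⟨w.get, fun i => ?_, by rwa [List.ofFn_get]⟩
    rw [List.forall₂_iff_get] at h1
    have := h1.2 i.val i.isLt (by rw [List.length_ofFn]; exact i.isLt)
    simpa using this
  · rintro ⟨w, h1, h2⟩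
    refine ⟨List.ofFn w, ?_, h2⟩
    rw [List.forall₂_iff_get]
    refine ⟨by simp, fun i hi hi' => ?_⟩
    simpa using h1 ⟨i, by simpa using hi⟩

/-- Read-once programs are monotone. -/
theorem mrecognizes_of_readOnce {A Q Γ S : Type} {N : ℕ} {B : NBP (Fin N) A S} {M : DPDA A Q Γ}
    (hR : B.ReadOnce) (hB : Recognizes B M) : MRecognizes B M := by
  classical
  intro W hW
  constructor
  · rintro ⟨l, h1, h2⟩
    choose w₀ hw₀ using hW
    -- choose the letters
    have h3 : ∀ l : List (Fin N × Set A), (l.map Prod.fst).Nodup →
        (∀ x ∈ l, ∃ a ∈ W x.1, a ∈ x.2) →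
        ∃ w : Fin N → A, (∀ i, w i ∈ W i) ∧ ∀ x ∈ l, w x.1 ∈ x.2 := by
      intro l
      induction l with
      | nil => intro _ _; exact ⟨w₀, hw₀, by simp⟩
      | cons y l ih =>
        intro h4 h5
        rw [List.map_cons, List.nodup_cons] at h4
        obtain ⟨w, h6, h7⟩ := ih h4.2 (fun x hx => h5 x (List.mem_cons_of_mem _ hx))
        obtain ⟨a, ha1, ha2⟩ := h5 y (List.mem_cons_self ..)
        refine ⟨Function.update w y.1 a, fun i => ?_, fun x hx => ?_⟩
        · by_cases hi : i = y.1
          · subst hi; rw [Function.update_self]; exact ha1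
          · rw [Function.update_of_ne hi]; exact h6 i
        · rcases List.mem_cons.1 hx with rfl | hx
          · rw [Function.update_self]; exact ha2
          · have hne : x.1 ≠ y.1 := by
              intro h
              exact h4.1 (h ▸ List.mem_map_of_mem hx)
            rw [Function.update_of_ne hne]
            exact h7 x hx
    obtain ⟨w, h4, h5⟩ := h3 l (hR l h1) h2
    exact ⟨w, h4, (hB w).1 ⟨l, h1, h5⟩⟩
  · rintro ⟨w, h1, h2⟩
    obtain ⟨l, h3, h4⟩ := (hB w).2 h2
    exact ⟨l, h3, fun x hx => ⟨w x.1, h1 x.1, h4 x hx⟩⟩

end Pool.Agent.V7H47.MN
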