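import Pool.Agent.V7H47.SM.Pieces
import Pool.Agent.V7H47.SM.Tests

/-!
Decomposition of a set of labellings into dense pieces, with a density parameter `Δ`.
-/

set_option autoImplicit false
set_option linter.unusedSectionVars false

open Finset

namespace Pool.Agent.V7H47.MN

open Pool.Agent.V7H47.SM

variable {V : Type} [Fintype V] [DecidableEq V] {M : ℕ}

/-- `A` is dense outside `F`: fixing the labels of a set `S` of vertices outside `F` leaves at most
a fraction `(Δ / M) ^ |S|`. -/
def DenseD (Δ : ℕ) (A : Finset (V → Fin M)) (F : Finset V) : Prop :=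
  ∀ S : Finset V, Disjoint S F → ∀ β, (cyl A S β).card * M ^ S.card ≤ Δ ^ S.card * A.card

/-- Restoring density. -/
lemma restoreD (Δ : ℕ) (A : Finset (V → Fin M)) (β₀ : V → Fin M) :
    ∃ (R : Finset V) (β : V → Fin M), A.card * Δ ^ R.card ≤ (cyl A R β).card * M ^ R.card ∧
      DenseD Δ (cyl A R β) R := by
  classical
  set 𝓡 : Finset (Finset V) := univ.filter
    (fun R => ∃ β : V → Fin M, A.card * Δ ^ R.card ≤ (cyl A R β).card * M ^ R.card) with h𝓡
  have hne : 𝓡.Nonempty := by
    refine ⟨∅, ?_⟩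
    rw [h𝓡, mem_filter]
    refine ⟨by simp, β₀, ?_⟩
    simp [cyl_empty]
  obtain ⟨R, hR, hmax⟩ := exists_max_image 𝓡 Finset.card hne
  rw [h𝓡, mem_filter] at hR
  obtain ⟨_, β, hβ⟩ := hR
  refine ⟨R, β, hβ, ?_⟩
  intro S hS γ
  rcases S.eq_empty_or_nonempty with h | h
  · subst h
    simp [cyl_empty]
  · have hdisj : Disjoint R S := hS.symm
    rw [cyl_cyl _ _ _ _ _ hdisj]
    have hcard : (R ∪ S).card = R.card + S.card := card_union_of_disjoint hdisj
    have hnot : (R ∪ S) ∉ 𝓡 := by
      intro hmem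
      have h1 := hmax _ hmem
      have := h.card_pos
      omega
    rw [h𝓡, mem_filter] at hnot
    push Not at hnot
    have h2 := hnot (mem_univ _) (fun u => if u ∈ R then β u else γ u)
    rw [hcard, pow_add, pow_add] at h2
    set X := (cyl A (R ∪ S) (fun u => if u ∈ R then β u else γ u)).card
    set Y := (cyl A R β).card
    have h3 : X * M ^ S.card * M ^ R.card < Δ ^ S.card * Y * M ^ R.card := by
      calc X * M ^ S.card * M ^ R.card = X * (M ^ R.card * M ^ S.card) := by ring
        _ < A.card * (Δ ^ R.card * Δ ^ S.card) := h2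
        _ = (A.card * Δ ^ R.card) * Δ ^ S.card := by ring
        _ ≤ (Y * M ^ R.card) * Δ ^ S.card := Nat.mul_le_mul_right _ hβ
        _ = Δ ^ S.card * Y * M ^ R.card := by ring
    exact (Nat.lt_of_mul_lt_mul_right h3).le

/-- Every set of labellings is, up to a small error, covered by dense pieces with few fixed
labels. -/
lemma piecesD (Δ : ℕ) (hΔ : 0 < Δ) (κ : ℕ) (n : ℕ) : ∀ A : Finset (V → Fin M), A.card ≤ n →
    ∃ Err ⊆ A, Err.card * Δ ^ κ ≤ M ^ (Fintype.card V) ∧
      ∀ x ∈ A, x ∉ Err → ∃ (A' : Finset (V → Fin M)) (F : Finset V), A' ⊆ A ∧ x ∈ A' ∧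
        F.card ≤ κ ∧ (∀ x' ∈ A', ∀ u ∈ F, x' u = x u) ∧ DenseD Δ A' F := by
  induction n with
  | zero =>
    intro A hA
    have : A = ∅ := by rw [← card_eq_zero]; omega
    subst this
    exact ⟨∅, by simp, by simp, by simp⟩
  | succ n ih =>
    intro A hA
    by_cases hsmall : A.card * Δ ^ κ ≤ M ^ (Fintype.card V)
    · exact ⟨A, Subset.rfl, hsmall, fun x hx hx' => absurd hx hx'⟩
    push Not at hsmall
    have hA0 : 0 < A.card := by
      rcases Nat.eq_zero_or_pos A.card with h | h
      · rw [h] at hsmall; omega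
      · exact h
    obtain ⟨x₀, hx₀⟩ := card_pos.mp hA0
    obtain ⟨R, β, hR, hdense⟩ := restoreD Δ A x₀
    set P := cyl A R β with hP
    have hPc : P.card ≤ M ^ (Rᶜ).card :=
      card_le_of_fixed P R β (fun x hx u hu => (mem_cyl.mp hx).2 u hu)
    have hRc : (Rᶜ).card + R.card = Fintype.card V := by
      rw [card_compl]
      have := card_le_univ R
      omega
    have h1 : A.card * Δ ^ R.card ≤ M ^ (Fintype.card V) := by
      calc A.card * Δ ^ R.card ≤ P.card * M ^ R.card := hR
        _ ≤ M ^ (Rᶜ).card * M ^ R.card := Nat.mul_le_mul_right _ hPc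
        _ = M ^ (Fintype.card V) := by rw [← pow_add, hRc]
    have hRκ : R.card ≤ κ := by
      by_contra h
      push Not at h
      have h2 : Δ ^ κ ≤ Δ ^ R.card := Nat.pow_le_pow_right hΔ h.le
      have h3 : A.card * Δ ^ κ ≤ A.card * Δ ^ R.card := Nat.mul_le_mul_left _ h2
      omega
    have hP0 : 0 < P.card := by
      rcases Nat.eq_zero_or_pos P.card with h | h
      · rw [h] at hR
        have : 0 < A.card * Δ ^ R.card := by positivity
        omega
      · exact h
    have hPA : P ⊆ A := cyl_subset _ _ _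
    have hcard : (A \ P).card ≤ n := by
      rw [card_sdiff_of_subset hPA]; omega
    obtain ⟨Err, hE1, hE2, hE3⟩ := ih (A \ P) hcard
    refine ⟨Err, hE1.trans sdiff_subset, hE2, ?_⟩
    intro x hx hxE
    by_cases hxP : x ∈ P
    · refine ⟨P, R, hPA, hxP, hRκ, ?_, hdense⟩
      intro x' hx' u hu
      rw [(mem_cyl.mp hx').2 u hu, (mem_cyl.mp hxP).2 u hu]
    · obtain ⟨A', F, h2, h3, h4, h5, h6⟩ := hE3 x (mem_sdiff.mpr ⟨hx, hxP⟩) hxE
      exact ⟨A', F, h2.trans sdiff_subset, h3, h4, h5, h6⟩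

/-- **The local full range lemma.** Let `A` be a nonempty set of labellings that agree on `F` and
are dense outside `F`. For `x ∈ A` let `J x` be a set of at most `q` vertices and `z x` an
assignment; let `G x` be a large set of sets of reached labels, which depends only on the
restriction of `z x` to `F`. Then for some `x ∈ A` and `y ∈ G x` one has `y (w, x w) = z x w` for
all `w ∈ J x` outside `F`. -/
theorem local_range {Δ κ κ' q M' : ℕ} (A : Finset (V → Fin M)) (hA : A.Nonempty) (F : Finset V)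
    (hF : F.card ≤ κ) (hdense : DenseD Δ A F) (hκ' : 1 ≤ κ')
    (hM' : 128 * q * (κ' + 1) ≤ M') (hM0 : 0 < M') (hM : Δ * 2 ^ κ * M' ≤ M) (hΔ : 0 < Δ)
    (J : (V → Fin M) → Finset V) (hJ : ∀ x ∈ A, (J x).card ≤ q)
    (z : (V → Fin M) → V → Bool)
    (G : (V → Bool) → Finset (V × Fin M → Bool))
    (hG : ∀ x ∈ A, 2 ^ (Fintype.card (V × Fin M)) ≤ 2 ^ κ' * (G (z x)).card)
    (hGF : ∀ r r' : V → Bool, (∀ w ∈ F, r w = r' w) → G r = G r') :
    ∃ x ∈ A, ∃ y ∈ G (z x), ∀ w ∈ J x, w ∉ F → y (w, x w) = z x w := by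
  classical
  -- a popular pattern
  obtain ⟨β, hβ⟩ : ∃ β : F → Bool, A.card ≤
      2 ^ κ * (A.filter (fun x => (fun w : F => z x w) = β)).card := by
    by_contra hcon
    push Not at hcon
    have h1 : A.card = ∑ β : F → Bool, (A.filter (fun x => (fun w : F => z x w) = β)).card :=
      card_eq_sum_card_fiberwise (fun _ _ => by simp)
    have h2 : 2 ^ κ * A.card < 2 ^ κ * A.card := by
      calc 2 ^ κ * A.card = ∑ β : F → Bool,
            2 ^ κ * (A.filter (fun x => (fun w : F => z x w) = β)).card := by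
            rw [← mul_sum, ← h1]
        _ < ∑ _β : F → Bool, A.card := by
            apply sum_lt_sum_of_nonempty
            · exact ⟨fun _ => false, mem_univ _⟩
            · intro β _; exact hcon β
        _ = 2 ^ F.card * A.card := by
            rw [sum_const, smul_eq_mul, card_univ, Fintype.card_fun, Fintype.card_bool,
              Fintype.card_coe]
        _ ≤ 2 ^ κ * A.card := Nat.mul_le_mul_right _ (Nat.pow_le_pow_right (by norm_num) hF)
    exact lt_irrefl _ h2
  set A₂ := A.filter (fun x => (fun w : F => z x w) = β) with hA₂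
  have hA₂0 : A₂.Nonempty := by
    rw [nonempty_iff_ne_empty]
    intro h
    rw [h] at hβ
    have := hA.card_pos
    simp at hβ
    rw [hβ] at this
    simp at this
  set r₀ : V → Bool := fun w => if h : w ∈ F then β ⟨w, h⟩ else false with hr₀
  have hzr : ∀ x ∈ A₂, G (z x) = G r₀ := by
    intro x hx
    apply hGF
    intro w hw
    have := congrFun (mem_filter.mp hx).2 ⟨w, hw⟩
    simp only [hr₀, hw, dif_pos]
    exact this
  obtain ⟨x₀, hx₀⟩ := hA₂0
  have hB : 2 ^ (Fintype.card (V × Fin M)) ≤ 2 ^ κ' * (G r₀).card := by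
    rw [← hzr x₀ hx₀]
    exact hG x₀ (mem_filter.mp hx₀).1
  obtain ⟨x, hx, y, hy, h⟩ := exists_test (G r₀) κ' hκ' hB A₂ ⟨x₀, hx₀⟩
    (fun x => ((J x).filter (fun w => w ∉ F)).image (fun w => (w, x w)))
    (fun x p => z x p.1) q M'
    (by
      intro x hx
      refine card_image_le.trans ((card_filter_le _ _).trans (hJ x (mem_filter.mp hx).1)))
    hM0 hM'
    (by
      intro Ts hTs
      -- the vertices of `Ts`
      by_cases hne : (A₂.filter (fun x => Ts ⊆
          ((J x).filter (fun w => w ∉ F)).image (fun w => (w, x w)))) = ∅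
      · rw [hne]; simp
      obtain ⟨x₁, hx₁⟩ := nonempty_iff_ne_empty.mpr hne
      rw [mem_filter] at hx₁
      obtain ⟨hx₁, hT₁⟩ := hx₁
      set S := Ts.image Prod.fst with hS
      have hgraph : ∀ p ∈ Ts, p.2 = x₁ p.1 ∧ p.1 ∉ F := by
        intro p hp
        obtain ⟨w, hw, hwp⟩ := mem_image.mp (hT₁ hp)
        rw [mem_filter] at hw
        rw [← hwp]
        exact ⟨rfl, hw.2⟩
      have hScard : S.card = Ts.card := by
        rw [hS]
        apply card_image_of_injOn
        intro p hp p' hp' hpp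
        have e1 := (hgraph p hp).1
        have e2 := (hgraph p' hp').1
        ext1
        · exact hpp
        · rw [e1, e2, hpp]
      have hSF : Disjoint S F := by
        rw [Finset.disjoint_left]
        intro w hw
        obtain ⟨p, hp, rfl⟩ := mem_image.mp hw
        exact (hgraph p hp).2
      have hsub : (A₂.filter (fun x => Ts ⊆
          ((J x).filter (fun w => w ∉ F)).image (fun w => (w, x w)))) ⊆ cyl A S x₁ := by
        intro x hx
        rw [mem_filter] at hx
        rw [mem_cyl]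
        refine ⟨(mem_filter.mp hx.1).1, ?_⟩
        intro w hw
        obtain ⟨p, hp, rfl⟩ := mem_image.mp hw
        obtain ⟨w', _, hw'⟩ := mem_image.mp (hx.2 hp)
        have e1 := (hgraph p hp).1
        rw [← hw'] at e1 ⊢
        exact e1
      have h1 := hdense S hSF x₁
      have h2 := card_le_card hsub
      set X := (A₂.filter (fun x => Ts ⊆
          ((J x).filter (fun w => w ∉ F)).image (fun w => (w, x w)))).card with hX
      have ht : 1 ≤ Ts.card := hTs.card_pos
      rw [hScard] at h1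
      -- arithmetic
      have h3 : X * (Δ * 2 ^ κ * M') ^ Ts.card ≤ Δ ^ Ts.card * (2 ^ κ * A₂.card) := by
        calc X * (Δ * 2 ^ κ * M') ^ Ts.card ≤ X * M ^ Ts.card :=
              Nat.mul_le_mul_left _ (Nat.pow_le_pow_left hM _)
          _ ≤ (cyl A S x₁).card * M ^ Ts.card := Nat.mul_le_mul_right _ h2
          _ ≤ Δ ^ Ts.card * A.card := h1
          _ ≤ Δ ^ Ts.card * (2 ^ κ * A₂.card) := Nat.mul_le_mul_left _ hβ
      have h4 : 2 ^ κ ≤ (2 ^ κ) ^ Ts.card := by
        calc 2 ^ κ = (2 ^ κ) ^ 1 := (pow_one _).symm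
          _ ≤ (2 ^ κ) ^ Ts.card := Nat.pow_le_pow_right (by positivity) ht
      have h5 : (Δ ^ Ts.card * (2 ^ κ)) * (X * M' ^ Ts.card) ≤
          (Δ ^ Ts.card * 2 ^ κ) * A₂.card := by
        calc (Δ ^ Ts.card * (2 ^ κ)) * (X * M' ^ Ts.card)
            ≤ (Δ ^ Ts.card * ((2 ^ κ) ^ Ts.card)) * (X * M' ^ Ts.card) :=
              Nat.mul_le_mul_right _ (Nat.mul_le_mul_left _ h4)
          _ = X * (Δ * 2 ^ κ * M') ^ Ts.card := by rw [mul_pow, mul_pow]; ring
          _ ≤ Δ ^ Ts.card * (2 ^ κ * A₂.card) := h3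
          _ = (Δ ^ Ts.card * 2 ^ κ) * A₂.card := by ring
      have h6 : X * M' ^ Ts.card ≤ A₂.card :=
        Nat.le_of_mul_le_mul_left h5 (by positivity)
      have h7 : 1 ≤ 2 * 2 ^ Ts.card := by
        have := Nat.one_le_two_pow (n := Ts.card)
        omega
      calc X * M' ^ Ts.card ≤ 1 * A₂.card := by rw [one_mul]; exact h6
        _ ≤ 2 * 2 ^ Ts.card * A₂.card := Nat.mul_le_mul_right _ h7)
  refine ⟨x, (mem_filter.mp hx).1, y, ?_, ?_⟩
  · rw [hzr x hx]; exact hy
  · intro w hw hwF
    have := h (w, x w) (by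
      rw [mem_image]
      exact ⟨w, mem_filter.mpr ⟨hw, hwF⟩, rfl⟩)
    exact this

end Pool.Agent.V7H47.MN
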