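import Pool.Agent.V7H42.PD.Tree

/-!
# Semantic refutations of the pebbling contradiction of the ternary tree need many variables

A configuration is a predicate on assignments `r` of the vertices of the complete ternary tree of
height `m` (`r v`: the vertex `v` has been reached), in which the root has the value `false`. The
clause of a vertex says that the vertex has been reached if all its children have been reached. In a
sequence of configurations from `true` to `false`, each of which follows from the previous one and
one clause, some configuration depends on at least `m` vertices.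
-/

set_option autoImplicit false

namespace Pool.Agent.V7H47.MN

open Pool.Agent.V7H42.PD

/-- The clause of the vertex `w`: if all children are reached then `w` is reached. -/
def Cl {m : ℕ} (w : T m) (r : T m → Bool) : Prop :=
  (∀ c k, par m c = some (w, k) → r c = true) → r w = true

/-- The configuration `M` depends only on the vertices in `I`. -/
def Dep {m : ℕ} (M : (T m → Bool) → Prop) (I : Finset (T m)) : Prop :=
  ∀ r r', (∀ v ∈ I, r v = r' v) → M r → M r'

/-- all vertices except for the root are reached -/
def allBut (m : ℕ) : T m → Bool := fun v => decide (v ≠ rt m)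

theorem allBut_rt (m : ℕ) : allBut m (rt m) = false := by simp [allBut]

theorem allBut_sub {m : ℕ} (i : Fin 3) (u : T m) : allBut (m + 1) (sub i u) = true := by
  simp [allBut, sub_ne_rt]

/-- the assignment that is equal to `ρ` in the `c`-th subtree, `false` at the root and `true`
elsewhere -/
def ext {m : ℕ} (c : Fin 3) (ρ : T m → Bool) : T (m + 1) → Bool
  | none => false
  | some (i, u) => if i = c then ρ u else true

theorem ext_rt {m : ℕ} (c : Fin 3) (ρ : T m → Bool) : ext c ρ (rt (m + 1)) = false := rfl

theorem ext_sub {m : ℕ} (c i : Fin 3) (ρ : T m → Bool) (u : T m) :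
    ext c ρ (sub i u) = if i = c then ρ u else true := rfl

theorem eq_rt_or_sub {m : ℕ} (v : T (m + 1)) : v = rt (m + 1) ∨ ∃ i u, v = sub i u := by
  match v with
  | none => exact Or.inl rfl
  | some (i, u) => exact Or.inr ⟨i, u, rfl⟩

/-- every clause can be satisfied -/
theorem exists_sat {m : ℕ} (w : T (m + 1)) : ∃ r : T (m + 1) → Bool, r (rt (m + 1)) = false ∧
    Cl w r := by
  rcases eq_rt_or_sub w with rfl | ⟨i, u, rfl⟩
  · refine ⟨fun _ => false, rfl, fun h => ?_⟩
    have := h (sub 0 (rt m)) 0 (par_sub_rt 0)
    exact absurd this (by simp)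
  · exact ⟨allBut (m + 1), allBut_rt _, fun _ => allBut_sub i u⟩

/-- clauses under the restriction to a subtree -/
theorem cl_ext {m : ℕ} (c : Fin 3) (w : T (m + 1)) :
    ∃ w' : T m, ∀ ρ : T m → Bool, ρ (rt m) = false → Cl w' ρ → Cl w (ext c ρ) := by
  rcases eq_rt_or_sub w with rfl | ⟨i, u, rfl⟩
  · refine ⟨rt m, fun ρ hρ _ h => ?_⟩
    have := h (sub c (rt m)) c (par_sub_rt c)
    rw [ext_sub, if_pos rfl, hρ] at this
    exact absurd this (by simp)
  · by_cases hi : i = c
    · subst hi
      refine ⟨u, fun ρ _ h1 h2 => ?_⟩
      rw [ext_sub, if_pos rfl]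
      refine h1 fun v k hv => ?_
      have := h2 (sub i v) k (par_sub_some i hv)
      rwa [ext_sub, if_pos rfl] at this
    · refine ⟨rt m, fun ρ _ _ _ => ?_⟩
      rw [ext_sub, if_neg hi]

/-- **The space bound.** -/
theorem space : ∀ (m L : ℕ) (M : ℕ → (T m → Bool) → Prop) (I : ℕ → Finset (T m)) (w : ℕ → T m),
    (∀ t ≤ L, Dep (M t) (I t)) → I 0 = ∅ → I L = ∅ → (∀ r, r (rt m) = false → M 0 r) →
    (∀ r, r (rt m) = false → ¬ M L r) →
    (∀ t < L, ∀ r, r (rt m) = false → M t r → Cl (w t) r → M (t + 1) r) →
    ∃ t ≤ L, m ≤ (I t).card
  | 0, L, M, I, w => fun _ _ _ _ _ _ => ⟨0, Nat.zero_le _, Nat.zero_le _⟩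
  | m + 1, L, M, I, w => by
    intro hdep h0 hL hM0 hML hstep
    by_contra hcon
    push Not at hcon
    have hcard : ∀ t ≤ L, (I t).card ≤ m := fun t ht => Nat.lt_succ_iff.mp (hcon t ht)
    rcases Nat.eq_zero_or_pos m with hm | hm
    · -- no variables at all
      subst hm
      have hI : ∀ t ≤ L, I t = ∅ := fun t ht => Finset.card_eq_zero.mp (Nat.le_zero.mp (hcard t ht))
      have hall : ∀ t ≤ L, ∀ r, r (rt 1) = false → M t r := by
        intro t
        induction t with
        | zero => intro _; exact hM0
        | succ t ih =>
          intro ht r hr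
          obtain ⟨r', h1, h2⟩ := exists_sat (w t)
          have h3 := hstep t (by omega) r' h1 (ih (by omega) r' h1) h2
          exact hdep (t + 1) ht r' r (by rw [hI _ ht]; simp) h3
      exact hML (allBut 1) (allBut_rt 1) (hall L le_rfl _ (allBut_rt 1))
    · -- concentrated times
      set Conc : ℕ → Prop := fun t => ∃ a : Fin 3, ∀ v ∈ I t, ∃ u, v = sub a u with hConc
      have hc0 : Conc 0 := ⟨0, by rw [h0]; simp⟩
      have hcL : Conc L := ⟨0, by rw [hL]; simp⟩
      have hbex : ∃ b, b ≤ L ∧ Conc b ∧ ¬ M b (allBut (m + 1)) :=
        ⟨L, le_rfl, hcL, hML _ (allBut_rt _)⟩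
      classical
      set b := Nat.find hbex with hb
      obtain ⟨hb1, hb2, hb3⟩ := Nat.find_spec hbex
      rw [← hb] at hb1 hb2 hb3
      have hb0 : 0 < b := by
        rcases Nat.eq_zero_or_pos b with h | h
        · rw [h] at hb3
          exact absurd (hM0 _ (allBut_rt _)) hb3
        · exact h
      -- the last concentrated time before b
      obtain ⟨a, ha1, ha2, ha3⟩ : ∃ a, a < b ∧ Conc a ∧ ∀ t, a < t → t < b → ¬ Conc t := by
        have h1 := Nat.findGreatest_spec (P := fun t => Conc t) (m := 0) (n := b - 1)
          (Nat.zero_le _) hc0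
        refine ⟨Nat.findGreatest (fun t => Conc t) (b - 1), ?_, h1, ?_⟩
        · have := Nat.findGreatest_le (P := fun t => Conc t) (b - 1)
          omega
        · intro t h2 h3 h4
          exact Nat.findGreatest_is_greatest h2 (by omega) h4
      have ha4 : M a (allBut (m + 1)) := by
        by_contra h
        exact Nat.find_min hbex ha1 ⟨by omega, ha2, h⟩
      obtain ⟨x, hx⟩ := ha2
      obtain ⟨y, hy⟩ := hb2
      obtain ⟨c, hcx, hcy⟩ : ∃ c : Fin 3, c ≠ x ∧ c ≠ y := by
        revert x y; intro x _ y _; clear * -; revert x y; decide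
      choose w' hw' using fun t => cl_ext c (w t)
      have hagree : ∀ (t : ℕ) (z : Fin 3), z ≠ c → (∀ v ∈ I t, ∃ u, v = sub z u) →
          ∀ ρ : T m → Bool, ∀ v ∈ I t, allBut (m + 1) v = ext c ρ v := by
        intro t z hz hv ρ v hvI
        obtain ⟨u, rfl⟩ := hv v hvI
        rw [allBut_sub, ext_sub, if_neg hz]
      have hempty : ∀ (t : ℕ) (z : Fin 3), z ≠ c → (∀ v ∈ I t, ∃ u, v = sub z u) →
          (Finset.univ.filter fun u : T m => sub c u ∈ I t) = ∅ := by
        intro t z hz hv
        rw [Finset.filter_eq_empty_iff]
        intro u _ hu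
        obtain ⟨u', hu'⟩ := hv _ hu
        exact hz (sub_inj hu').1.symm
      have key := space m (b - a) (fun t ρ => M (a + t) (ext c ρ))
        (fun t => Finset.univ.filter fun u => sub c u ∈ I (a + t)) (fun t => w' (a + t))
        (by
          intro t ht r r' h hM
          refine hdep (a + t) (by omega) _ _ ?_ hM
          intro v hv
          rcases eq_rt_or_sub v with rfl | ⟨i, u, rfl⟩
          · rfl
          · rw [ext_sub, ext_sub]
            split_ifs with hi
            · subst hi
              exact h u (by simpa using hv)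
            · rfl)
        (hempty a x hcx.symm hx)
        (by
          have : a + (b - a) = b := by omega
          simp only [this]
          exact hempty b y hcy.symm hy)
        (by
          intro ρ _
          exact hdep a (by omega) _ _ (hagree a x hcx.symm hx ρ) ha4)
        (by
          intro ρ _ hM
          have e1 : a + (b - a) = b := by omega
          simp only [e1] at hM
          exact hb3 (hdep b hb1 _ _ (fun v hv => (hagree b y hcy.symm hy ρ v hv).symm) hM))
        (by
          intro t ht ρ hρ hM hcl
          exact hstep (a + t) (by omega) _ (ext_rt c ρ) hM (hw' (a + t) ρ hρ hcl))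
      obtain ⟨t, ht1, ht2⟩ := key
      -- all variables are in the subtree
      have h1 : ((Finset.univ.filter fun u : T m => sub c u ∈ I (a + t)).image (sub c)) ⊆
          I (a + t) := by
        intro v hv
        obtain ⟨u, hu, rfl⟩ := Finset.mem_image.mp hv
        exact (Finset.mem_filter.mp hu).2
      have h2 : ((Finset.univ.filter fun u : T m => sub c u ∈ I (a + t)).image (sub c)) =
          I (a + t) := by
        refine Finset.eq_of_subset_of_card_le h1 ?_
        rw [Finset.card_image_of_injective _ fun _ _ h => (sub_inj h).2]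
        exact (hcard (a + t) (by omega)).trans ht2
      have h3 : Conc (a + t) := by
        refine ⟨c, fun v hv => ?_⟩
        rw [← h2] at hv
        obtain ⟨u, _, rfl⟩ := Finset.mem_image.mp hv
        exact ⟨u, rfl⟩
      have h4 : t = 0 ∨ t = b - a := by
        by_contra h
        push Not at h
        exact ha3 (a + t) (by omega) (by omega) h3
      have h5 : (Finset.univ.filter fun u : T m => sub c u ∈ I (a + t)) = ∅ := by
        rcases h4 with rfl | rfl
        · exact hempty a x hcx.symm hx
        · have : a + (b - a) = b := by omega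
          rw [this]
          exact hempty b y hcy.symm hy
      rw [h5] at ht2
      simp at ht2
      omega

/-- The configurations which can be reached with configurations that depend on at most `κ`
vertices. -/
inductive Der {m : ℕ} (κ : ℕ) : ((T m → Bool) → Prop) → Prop
  | start : Der κ (fun _ => True)
  | step {M M' : (T m → Bool) → Prop} (w : T m) (I : Finset (T m)) (hM : Der κ M)
      (hI : I.card ≤ κ) (hd : Dep M' I)
      (h : ∀ r, r (rt m) = false → M r → Cl w r → M' r) : Der κ M'

/-- Every configuration that can be reached with fewer than `m` vertices depends on at most `κ`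
vertices. -/
theorem Der.exists_dep {m κ : ℕ} {M : (T m → Bool) → Prop} (h : Der κ M) :
    ∃ I : Finset (T m), I.card ≤ κ ∧ Dep M I := by
  cases h with
  | start => exact ⟨∅, by simp, fun _ _ _ h => h⟩
  | step w I hM hI hd h => exact ⟨I, hI, hd⟩

/-- a sequence of configurations -/
theorem Der.exists_seq {m κ : ℕ} {M : (T m → Bool) → Prop} (h : Der κ M) :
    ∃ (L : ℕ) (N : ℕ → (T m → Bool) → Prop) (I : ℕ → Finset (T m)) (w : ℕ → T m),
      (∀ t ≤ L, Dep (N t) (I t)) ∧ (∀ t ≤ L, (I t).card ≤ κ) ∧ I 0 = ∅ ∧
      (∀ r, r (rt m) = false → N 0 r) ∧ N L = M ∧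
      (∀ t < L, ∀ r, r (rt m) = false → N t r → Cl (w t) r → N (t + 1) r) := by
  classical
  induction h with
  | start => exact ⟨0, fun _ _ => True, fun _ => ∅, fun _ => rt m, fun _ _ _ _ _ h => h,
      fun _ _ => by simp, rfl, fun _ _ => trivial, rfl, fun _ _ _ _ _ _ => trivial⟩
  | @step M M' w I hM hI hd h ih =>
    obtain ⟨L, N, J, w', h1, h2, h3, h4, h5, h6⟩ := ih
    refine ⟨L + 1, fun t => if t = L + 1 then M' else N t, fun t => if t = L + 1 then I else J t,
      fun t => if t = L then w else w' t, ?_, ?_, ?_, ?_, ?_, ?_⟩
    · intro t ht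
      by_cases e : t = L + 1
      · simp only [e, if_true]; exact hd
      · simp only [e, if_false]; exact h1 t (by omega)
    · intro t ht
      by_cases e : t = L + 1
      · simp only [e, if_true]; exact hI
      · simp only [e, if_false]; exact h2 t (by omega)
    · simp only [show (0:ℕ) ≠ L + 1 by omega, if_false]; exact h3
    · intro r hr
      simp only [show (0:ℕ) ≠ L + 1 by omega, if_false]; exact h4 r hr
    · simp
    · intro t ht r hr hN hcl
      by_cases e : t = L
      · subst e
        simp only [if_true] at hcl ⊢
        simp only [show t ≠ t + 1 by omega, if_false, h5] at hN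
        exact h r hr hN hcl
      · simp only [e, if_false] at hcl
        simp only [show t ≠ L + 1 by omega, if_false] at hN
        simp only [show t + 1 ≠ L + 1 by omega, if_false]
        exact h6 t (by omega) r hr hN hcl

/-- **Configurations with fewer than `m` vertices are satisfiable.** -/
theorem Der.sat {m κ : ℕ} (hκ : κ < m) {M : (T m → Bool) → Prop} (h : Der κ M) :
    ∃ r, r (rt m) = false ∧ M r := by
  by_contra hcon
  push Not at hcon
  -- one more step to the empty configuration
  have h' : Der κ (fun _ : T m → Bool => False) :=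
    Der.step (rt m) ∅ h (by simp) (fun _ _ _ h => h) (fun r hr hM _ => hcon r hr hM)
  obtain ⟨L, N, I, w, h1, h2, h3, h4, h5, h6⟩ := h'.exists_seq
  classical
  obtain ⟨t, ht1, ht2⟩ := space m L N (fun t => if t = L then ∅ else I t) w
    (by
      intro t ht
      by_cases e : t = L
      · subst e
        simp only [if_true]
        intro r r' _ hM
        rw [h5] at hM ⊢
        exact hM
      · simp only [e, if_false]; exact h1 t ht)
    (by by_cases e : 0 = L <;> simp [e, h3])
    (by simp) h4 (by intro r _; rw [h5]; exact id) h6
  by_cases e : t = L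
  · simp [e] at ht2; omega
  · simp only [e, if_false] at ht2
    have := h2 t ht1
    omega

end Pool.Agent.V7H47.MN
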