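import Pool.Agent.V7H42.PD.Bound
import Pool.Agent.V7H47.MN.Dense
import Pool.Agent.V7H47.MN.Pebble

/-!
Lifting the space bound to monotone nondeterministic branching programs.
-/

set_option autoImplicit false
set_option linter.unusedSectionVars false

open Finset

namespace Pool.Agent.V7H47.MN

open Pool.Agent.V7H47.SM
open Pool.Agent.V7H42.PD (T J rt sub par par_sub_some par_sub_rt sub_inj sub_ne_rt eq_rt_of_par par_rt
  lab lab_fst)

/-! ### reachability -/

/-- The node `v` is reached from `s₀` in at most `i` steps on the input `x`. -/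
def Reach {ι S : Type} (E : S → S → Option ι → Prop) (s₀ : S) (x : ι → Prop) : ℕ → S → Prop
  | 0, v => v = s₀
  | i + 1, v => Reach E s₀ x i v ∨
      ∃ u, Reach E s₀ x i u ∧ (E u v none ∨ ∃ e, E u v (some e) ∧ x e)

theorem Reach.mono {ι S : Type} {E : S → S → Option ι → Prop} {s₀ : S} {x : ι → Prop} {i j : ℕ}
    (h : i ≤ j) {v : S} (hv : Reach E s₀ x i v) : Reach E s₀ x j v := by
  induction h with
  | refl => exact hv
  | step _ ih => exact Or.inl ih

theorem reach_sat {ι S : Type} [Fintype S] (E : S → S → Option ι → Prop) (s₀ : S) (x : ι → Prop)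
    {i : ℕ} {v : S} (hv : Reach E s₀ x i v) : Reach E s₀ x (Fintype.card S) v := by
  classical
  set P : ℕ → Finset S := fun i => univ.filter (fun v => Reach E s₀ x i v) with hP
  have hmono : ∀ i j, i ≤ j → P i ⊆ P j := by
    intro i j h v hv
    simp only [hP, mem_filter, mem_univ, true_and] at hv ⊢
    exact hv.mono h
  have hstep : ∀ i, P (i + 1) = P i → P (i + 2) = P (i + 1) := by
    intro i h
    apply subset_antisymm _ (hmono _ _ (by omega))
    intro v hv
    simp only [hP, mem_filter, mem_univ, true_and] at hv ⊢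
    have hiff : ∀ u, Reach E s₀ x (i + 1) u ↔ Reach E s₀ x i u := by
      intro u
      have := congrArg (fun s => u ∈ s) h
      simpa only [hP, mem_filter, mem_univ, true_and, eq_iff_iff] using this
    rcases hv with hv | ⟨u, hu, he⟩
    · exact hv
    · exact Or.inr ⟨u, (hiff u).1 hu, he⟩
  have hstable : ∀ i, P (i + 1) = P i → ∀ j, i ≤ j → P j = P i ∧ P (j + 1) = P j := by
    intro i h j hj
    induction hj with
    | refl => exact ⟨rfl, h⟩
    | @step j _ ih => exact ⟨ih.2.trans ih.1, hstep j ih.2⟩
  have key : ∀ i, (∀ j, i ≤ j → P j = P i) ∨ i < (P i).card := by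
    intro i
    induction i with
    | zero =>
      right
      apply card_pos.mpr
      refine ⟨s₀, ?_⟩
      simp only [hP, mem_filter, mem_univ, true_and]
      rfl
    | succ i ih =>
      rcases ih with ih | ih
      · left
        intro j hj
        rw [ih j (by omega), ih (i + 1) (by omega)]
      · by_cases h : P (i + 1) = P i
        · left
          intro j hj
          rw [(hstable i h j (by omega)).1, h]
        · right
          have h1 : P i ⊂ P (i + 1) := by
            rw [Finset.ssubset_iff_subset_ne]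
            exact ⟨hmono _ _ (by omega), fun h' => h h'.symm⟩
          have := card_lt_card h1
          omega
  have h1 : ∀ j, Fintype.card S ≤ j → P j = P (Fintype.card S) := by
    rcases key (Fintype.card S) with h | h
    · exact h
    · have := card_le_univ (P (Fintype.card S))
      omega
  have h2 : v ∈ P (max i (Fintype.card S)) := by
    simp only [hP, mem_filter, mem_univ, true_and]
    exact hv.mono (le_max_left _ _)
  rw [h1 _ (le_max_right _ _)] at h2
  simpa only [hP, mem_filter, mem_univ, true_and] using h2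

/-! ### the inputs -/

variable {m n : ℕ}

/-- the input given by a labelling: only the items of the labelling -/
def yes (x₀ : Fin n) (ψ : T m → Fin n) : T m × J n → Prop := fun p => p.2 = lab m ψ x₀ p.1

/-- the input given by sets of reached labels: all items that do not reach new labels -/
def no (R : T m × Fin n → Bool) : T m × J n → Prop := fun p =>
  (∀ c k, par m c = some (p.1, k) → R (c, p.2.2 k) = true) → (p.1 ≠ rt m ∧ R (p.1, p.2.1) = true)

/-- the vertices whose label is reached -/
def rr (ψ : T m → Fin n) (R : T m × Fin n → Bool) : T m → Bool :=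
  fun v => decide (v ≠ rt m) && R (v, ψ v)

theorem rr_rt (ψ : T m → Fin n) (R : T m × Fin n → Bool) : rr ψ R (rt m) = false := by
  simp [rr]

theorem rr_ne {v : T m} (hv : v ≠ rt m) (ψ : T m → Fin n) (R : T m × Fin n → Bool) :
    rr ψ R v = R (v, ψ v) := by
  simp [rr, hv]

theorem lab_snd : ∀ (m : ℕ) (ψ : T m → Fin n) (x : Fin n) (v p : T m) (k : Fin 3),
    par m v = some (p, k) → (lab m ψ x p).2 k = ψ v
  | 0, ψ, x, v, p, k => fun h => by simp [par] at h
  | m + 1, ψ, x, none, p, k => fun h => by simp [par] at h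
  | m + 1, ψ, x, some (i, u), p, k => fun h => by
    rcases hp : par m u with _ | ⟨p', k'⟩
    · obtain rfl := eq_rt_of_par hp
      have h8 : par (m + 1) (sub i (rt m)) = some (p, k) := h
      rw [par_sub_rt] at h8
      simp only [Option.some.injEq, Prod.mk.injEq] at h8
      obtain ⟨rfl, rfl⟩ := h8
      rfl
    · have h8 : par (m + 1) (sub i u) = some (p, k) := h
      rw [par_sub_some i hp] at h8
      simp only [Option.some.injEq, Prod.mk.injEq] at h8
      obtain ⟨rfl, rfl⟩ := h8
      exact lab_snd m (fun v => ψ (sub i v)) (ψ (sub i (rt m))) u p' k' hp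

theorem no_of_cl (x₀ : Fin n) (ψ : T m → Fin n) (R : T m × Fin n → Bool) (v : T m)
    (h : Cl v (rr ψ R)) : no R (v, lab m ψ x₀ v) := by
  intro h1
  have h2 : rr ψ R v = true := by
    apply h
    intro c k hc
    have hne : c ≠ rt m := by
      rintro rfl
      rw [par_rt] at hc
      exact absurd hc (by simp)
    rw [rr_ne hne]
    have := h1 c k hc
    rwa [show (lab m ψ x₀ v).2 k = ψ c from lab_snd m ψ x₀ c v k hc] at this
  have hne : v ≠ rt m := by
    rintro rfl
    rw [rr_rt] at h2
    exact absurd h2 (by simp)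
  rw [rr_ne hne] at h2
  refine ⟨hne, ?_⟩
  rcases hp : par m v with _ | ⟨p, k⟩
  · exact absurd (eq_rt_of_par hp) hne
  · show R (v, (lab m ψ x₀ v).1) = true
    rw [lab_fst m ψ x₀ v p k hp]
    exact h2

theorem par_inj : ∀ (m : ℕ) (c c' p : T m) (k : Fin 3), par m c = some (p, k) →
    par m c' = some (p, k) → c = c'
  | 0, c, c', p, k => fun h => by simp [par] at h
  | m + 1, none, c', p, k => fun h => by simp [par] at h
  | m + 1, c, none, p, k => fun _ h => by simp [par] at h
  | m + 1, some (i, u), some (i', u'), p, k => fun h h' => by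
    have h1 : par (m + 1) (sub i u) = some (p, k) := h
    have h2 : par (m + 1) (sub i' u') = some (p, k) := h'
    rcases hp : par m u with _ | ⟨q, l⟩ <;> rcases hp' : par m u' with _ | ⟨q', l'⟩
    · obtain rfl := eq_rt_of_par hp
      obtain rfl := eq_rt_of_par hp'
      rw [par_sub_rt] at h1 h2
      simp only [Option.some.injEq, Prod.mk.injEq] at h1 h2
      rw [h1.2, ← h2.2]
    · obtain rfl := eq_rt_of_par hp
      rw [par_sub_rt] at h1
      rw [par_sub_some i' hp'] at h2
      simp only [Option.some.injEq, Prod.mk.injEq] at h1 h2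
      exact absurd (h2.1.trans h1.1.symm) (sub_ne_rt _ _)
    · obtain rfl := eq_rt_of_par hp'
      rw [par_sub_rt] at h2
      rw [par_sub_some i hp] at h1
      simp only [Option.some.injEq, Prod.mk.injEq] at h1 h2
      exact absurd (h1.1.trans h2.1.symm) (sub_ne_rt _ _)
    · rw [par_sub_some i hp] at h1
      rw [par_sub_some i' hp'] at h2
      simp only [Option.some.injEq, Prod.mk.injEq] at h1 h2
      obtain ⟨e1, e2⟩ := sub_inj (h1.1.trans h2.1.symm)
      subst e1; subst e2
      have e3 : l = l' := h1.2.trans h2.2.symm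
      subst e3
      rw [par_inj m u u' q l hp hp']

open Classical in
/-- a vertex and its children -/
noncomputable def nb (w : T m) : Finset (T m) :=
  insert w (univ.filter fun c => ∃ k, par m c = some (w, k))

theorem card_nb (w : T m) : (nb w).card ≤ 4 := by
  classical
  unfold nb
  refine (card_insert_le _ _).trans ?_
  have h : (univ.filter fun c : T m => ∃ k, par m c = some (w, k)).card ≤
      (univ : Finset (Fin 3)).card := by
    apply card_le_card_of_injOn (fun c => ((par m c).map Prod.snd).getD 0) (fun _ _ => by simp)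
    intro c hc c' hc' h
    rw [mem_coe, mem_filter] at hc hc'
    obtain ⟨_, k, hk⟩ := hc
    obtain ⟨_, k', hk'⟩ := hc'
    simp only [hk, hk', Option.map_some, Option.getD_some] at h
    subst h
    exact par_inj m c c' w k hk hk'
  rw [card_univ, Fintype.card_fin] at h
  omega

theorem dep_cl (w : T m) : Dep (Cl w) (nb w) := by
  classical
  intro r r' h hcl hr
  have h1 : ∀ c k, par m c = some (w, k) → r c = true := by
    intro c k hc
    rw [h c (by simp only [nb, mem_insert, mem_filter, mem_univ, true_and]; exact Or.inr ⟨k, hc⟩)]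
    exact hr c k hc
  rw [← h w (by simp [nb])]
  exact hcl h1

/-! ### the induction -/

theorem main_step {S : Type} [Fintype S] (E : S → S → Option (T m × J n) → Prop)
    (s₀ : S) (x₀ : Fin n) (κ κ' Δ M' : ℕ) (hΔ : 0 < Δ) (hκ' : 1 ≤ κ')
    (hM' : 128 * (κ + 4) * (κ' + 1) ≤ M') (hM : Δ * 2 ^ κ * M' ≤ n) (i : ℕ) :
    ∃ (X : Finset (T m → Fin n)) (Y : Finset (T m × Fin n → Bool)),
      X.card * Δ ^ κ ≤ i * Fintype.card S * n ^ Fintype.card (T m) ∧
      Y.card * 2 ^ κ' ≤ i * Fintype.card S * (2 * Fintype.card (T m × Fin n) + 1) ^ κ *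
        2 ^ Fintype.card (T m × Fin n) ∧
      ∀ (v : S), ∀ ψ ∉ X, Reach E s₀ (yes x₀ ψ) i v →
        ∃ M, Der κ M ∧ ∀ R ∉ Y, ¬ Reach E s₀ (no R) i v → ¬ M (rr ψ R) := by
  classical
  induction i with
  | zero =>
    refine ⟨∅, ∅, by simp, by simp, ?_⟩
    intro v ψ _ hv
    exact ⟨fun _ => True, Der.start, fun R _ h => absurd hv h⟩
  | succ i ih =>
    obtain ⟨X, Y, hX, hY, IH⟩ := ih
    set A : S → Finset (T m → Fin n) := fun v =>
      univ.filter (fun ψ => ψ ∉ X ∧ Reach E s₀ (yes x₀ ψ) (i + 1) v) with hA
    set Z : S → Finset (T m × Fin n → Bool) := fun v =>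
      univ.filter (fun R => R ∉ Y ∧ ¬ Reach E s₀ (no R) (i + 1) v) with hZ
    choose Err hE1 hE2 hE3 using fun v => piecesD Δ hΔ κ (A v).card (A v) le_rfl
    choose ErrB hB1 hB2 hB3 using fun v => patterns κ κ' (Z v)
    refine ⟨X ∪ univ.biUnion Err, Y ∪ univ.biUnion ErrB, ?_, ?_, ?_⟩
    · have h1 : (X ∪ univ.biUnion Err).card ≤ X.card + ∑ v, (Err v).card :=
        (card_union_le _ _).trans (Nat.add_le_add_left card_biUnion_le _)
      calc (X ∪ univ.biUnion Err).card * Δ ^ κ ≤ (X.card + ∑ v, (Err v).card) * Δ ^ κ :=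
            Nat.mul_le_mul_right _ h1
        _ = X.card * Δ ^ κ + ∑ v, (Err v).card * Δ ^ κ := by rw [add_mul, sum_mul]
        _ ≤ i * Fintype.card S * n ^ Fintype.card (T m) +
            ∑ _v : S, n ^ Fintype.card (T m) := by
            apply Nat.add_le_add hX
            exact sum_le_sum fun v _ => hE2 v
        _ = (i + 1) * Fintype.card S * n ^ Fintype.card (T m) := by
            rw [sum_const, card_univ, smul_eq_mul]; ring
    · have h1 : (Y ∪ univ.biUnion ErrB).card ≤ Y.card + ∑ v, (ErrB v).card :=
        (card_union_le _ _).trans (Nat.add_le_add_left card_biUnion_le _)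
      calc (Y ∪ univ.biUnion ErrB).card * 2 ^ κ' ≤ (Y.card + ∑ v, (ErrB v).card) * 2 ^ κ' :=
            Nat.mul_le_mul_right _ h1
        _ = Y.card * 2 ^ κ' + ∑ v, (ErrB v).card * 2 ^ κ' := by rw [add_mul, sum_mul]
        _ ≤ i * Fintype.card S * (2 * Fintype.card (T m × Fin n) + 1) ^ κ *
            2 ^ Fintype.card (T m × Fin n) +
            ∑ _v : S, (2 * Fintype.card (T m × Fin n) + 1) ^ κ *
              2 ^ Fintype.card (T m × Fin n) := by
            apply Nat.add_le_add hY
            exact sum_le_sum fun v _ => hB2 v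
        _ = (i + 1) * Fintype.card S * (2 * Fintype.card (T m × Fin n) + 1) ^ κ *
            2 ^ Fintype.card (T m × Fin n) := by
            rw [sum_const, card_univ, smul_eq_mul]; ring
    · intro v ψ hψ hreach
      have hψX : ψ ∉ X := fun h => hψ (mem_union_left _ h)
      have hψA : ψ ∈ A v := by
        simp only [hA, mem_filter, mem_univ, true_and]
        exact ⟨hψX, hreach⟩
      have hψE : ψ ∉ Err v := fun h =>
        hψ (mem_union_right _ (mem_biUnion.mpr ⟨v, mem_univ _, h⟩))
      obtain ⟨A', F, hA'A, hψA', hF, hag, hdense⟩ := hE3 v ψ hψA hψE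
      set M : (T m → Bool) → Prop := fun r =>
        ∀ R ∈ Z v, R ∉ ErrB v → ∃ w ∈ F, rr ψ R w ≠ r w with hMdef
      have hdepM : Dep M F := by
        intro r r' h hM R hR hR'
        obtain ⟨w, hw, hne⟩ := hM R hR hR'
        exact ⟨w, hw, by rw [← h w hw]; exact hne⟩
      refine ⟨M, ?_, ?_⟩
      · by_contra hDer
        -- every labelling in the piece
        have hall : ∀ ψ' ∈ A', ∃ (N : (T m → Bool) → Prop) (w : T m) (I : Finset (T m))
            (r : T m → Bool), I.card ≤ κ ∧ Dep N I ∧ r (rt m) = false ∧ N r ∧ Cl w r ∧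
            ¬ M r ∧ (∀ R ∉ Y, ¬ Reach E s₀ (no R) (i + 1) v →
              ¬ (N (rr ψ' R) ∧ Cl w (rr ψ' R))) := by
          intro ψ' hψ'
          have hψ'A := hA'A hψ'
          simp only [hA, mem_filter, mem_univ, true_and] at hψ'A
          obtain ⟨hψ'X, hr'⟩ := hψ'A
          obtain ⟨N, w, hN, hNR⟩ : ∃ (N : (T m → Bool) → Prop) (w : T m), Der κ N ∧
              (∀ R ∉ Y, ¬ Reach E s₀ (no R) (i + 1) v →
                ¬ (N (rr ψ' R) ∧ Cl w (rr ψ' R))) := by
            rcases hr' with hr' | ⟨u, hu, he⟩
            · obtain ⟨N, hN, hNR⟩ := IH v ψ' hψ'X hr'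
              exact ⟨N, rt m, hN, fun R hR hv h =>
                hNR R hR (fun h' => hv (Or.inl h')) h.1⟩
            · obtain ⟨N, hN, hNR⟩ := IH u ψ' hψ'X hu
              rcases he with he | ⟨⟨w, j⟩, he, hj⟩
              · exact ⟨N, rt m, hN, fun R hR hv h =>
                  hNR R hR (fun h' => hv (Or.inr ⟨u, h', Or.inl he⟩)) h.1⟩
              · refine ⟨N, w, hN, fun R hR hv h => ?_⟩
                have hj' : j = lab m ψ' x₀ w := hj
                have h1 : no R (w, j) := by
                  rw [hj']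
                  exact no_of_cl x₀ ψ' R w h.2
                exact hNR R hR (fun h' => hv (Or.inr ⟨u, h', Or.inr ⟨(w, j), he, h1⟩⟩)) h.1
          obtain ⟨I, hI, hdepN⟩ := hN.exists_dep
          by_contra hcon
          push Not at hcon
          apply hDer
          refine Der.step w F hN hF hdepM ?_
          intro r h1 h2 h3
          by_contra h4
          obtain ⟨R, h5, h6, h7⟩ := hcon N w I r hI hdepN h1 h2 h3 h4
          exact hNR R h5 h6 h7
        have : Nonempty (T m) := ⟨rt m⟩
        choose! N w I r hI hdepN hr1 hr2 hr3 hr4 hNR using hall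
        set G : (T m → Bool) → Finset (T m × Fin n → Bool) := fun z =>
          (Z v).filter (fun R => ∀ w ∈ F, w ≠ rt m → R (w, ψ w) = z w) with hG
        obtain ⟨ψ', hψ', R, hR, hRJ⟩ := local_range (q := κ + 4) A' ⟨ψ, hψA'⟩ F hF hdense hκ'
          hM' (by
            have : 0 < 128 * (κ + 4) * (κ' + 1) := by positivity
            omega) hM hΔ (fun ψ' => I ψ' ∪ nb (w ψ'))
          (by
            intro ψ' hψ'
            refine (card_union_le _ _).trans ?_
            have h1 := hI ψ' hψ'
            have h2 := card_nb (w ψ')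
            omega) r G
          (by
            intro ψ' hψ'
            have h1 := hr4 ψ' hψ'
            simp only [hMdef] at h1
            push Not at h1
            obtain ⟨R₀, h2, h3, h4⟩ := h1
            have h5 := hB3 v R₀ h2 h3 (F.image (fun w => (w, ψ w)))
              (card_image_le.trans hF)
            refine h5.trans (Nat.mul_le_mul_left _ (card_le_card ?_))
            intro R' hR'
            rw [mem_filter] at hR'
            simp only [hG]
            rw [mem_filter]
            refine ⟨hR'.1, fun w hw hne => ?_⟩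
            rw [hR'.2 (w, ψ w) (mem_image_of_mem _ hw), ← h4 w hw, rr_ne hne])
          (by
            intro z z' h
            simp only [hG]
            apply filter_congr
            intro R' _
            constructor
            · intro h1 w hw hne
              rw [h1 w hw hne, h w hw]
            · intro h1 w hw hne
              rw [h1 w hw hne, h w hw])
        simp only [hG] at hR
        rw [mem_filter] at hR
        obtain ⟨hRZ, hRF⟩ := hR
        simp only [hZ, mem_filter, mem_univ, true_and] at hRZ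
        have hagree : ∀ u ∈ I ψ' ∪ nb (w ψ'), r ψ' u = rr ψ' R u := by
          intro u hu
          by_cases hurt : u = rt m
          · rw [hurt, rr_rt, hr1 ψ' hψ']
          · rw [rr_ne hurt]
            by_cases huF : u ∈ F
            · rw [hag ψ' hψ' u huF]
              exact (hRF u huF hurt).symm
            · exact (hRJ u hu huF).symm
        exact hNR ψ' hψ' R hRZ.1 hRZ.2
          ⟨hdepN ψ' hψ' _ _ (fun u hu => hagree u (mem_union_left _ hu)) (hr2 ψ' hψ'),
            dep_cl (w ψ') _ _ (fun u hu => hagree u (mem_union_right _ hu)) (hr3 ψ' hψ')⟩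
      · intro R hR hnr hMR
        have hRZ : R ∈ Z v := by
          simp only [hZ, mem_filter, mem_univ, true_and]
          exact ⟨fun h => hR (mem_union_left _ h), hnr⟩
        have hRE : R ∉ ErrB v := fun h =>
          hR (mem_union_right _ (mem_biUnion.mpr ⟨v, mem_univ _, h⟩))
        obtain ⟨w, _, hne⟩ := hMR R hRZ hRE
        exact hne rfl

/-- Fixing at most `κ` bits. -/
theorem card_fixed {W : Type} [Fintype W] [DecidableEq W] (D : Finset W) (g : W → Bool) :
    2 ^ Fintype.card W ≤
      (univ.filter (fun R : W → Bool => ∀ p ∈ D, R p = g p)).card * 2 ^ D.card := by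
  classical
  have h1 : Fintype.card (W → Bool) = 2 ^ Fintype.card W := by
    rw [Fintype.card_fun, Fintype.card_bool]
  have h2 : (univ : Finset (D → Bool)).card = 2 ^ D.card := by
    rw [card_univ, Fintype.card_fun, Fintype.card_bool, Fintype.card_coe]
  rw [← h1, ← h2, ← card_product, ← card_univ]
  apply card_le_card_of_injOn
    (fun R => ((fun p => if p ∈ D then g p else R p), (fun p : D => R p)))
  · intro R _
    rw [mem_coe, mem_product]
    refine ⟨?_, mem_univ _⟩
    rw [mem_filter]
    refine ⟨mem_univ _, fun p hp => by simp [hp]⟩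
  · intro R _ R' _ h
    simp only [Prod.mk.injEq] at h
    funext p
    by_cases hp : p ∈ D
    · exact congrFun h.2 ⟨p, hp⟩
    · have := congrFun h.1 p
      simpa [hp] using this

/-- **Lifting.** -/
theorem lift_bound {S : Type} [Fintype S] (E : S → S → Option (T m × J n) → Prop)
    (s₀ s₁ : S) (x₀ : Fin n)
    (hyes : ∀ ψ, ∃ i, Reach E s₀ (yes x₀ ψ) i s₁)
    (hno : ∀ R, ∀ i, ¬ Reach E s₀ (no R) i s₁)
    (κ κ' Δ M' : ℕ) (hκ : κ < m) (hΔ : 0 < Δ) (hκ' : 1 ≤ κ')
    (hM' : 128 * (κ + 4) * (κ' + 1) ≤ M') (hM : Δ * 2 ^ κ * M' ≤ n)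
    (hbob : Fintype.card S * Fintype.card S * (2 * Fintype.card (T m × Fin n) + 1) ^ κ * 2 ^ κ
      < 2 ^ κ') :
    Δ ^ κ ≤ Fintype.card S * Fintype.card S := by
  classical
  by_contra hcon
  push Not at hcon
  set s := Fintype.card S with hs
  obtain ⟨X, Y, hX, hY, h⟩ := main_step E s₀ x₀ κ κ' Δ M' hΔ hκ' hM' hM s
  rw [← hs] at hX hY
  have hn : 0 < n := x₀.pos
  -- a good labelling
  obtain ⟨ψ, hψ⟩ : ∃ ψ, ψ ∉ X := by
    by_contra hall
    push Not at hall
    have h1 : X = univ := eq_univ_of_forall hall
    rw [h1, card_univ, Fintype.card_fun, Fintype.card_fin, mul_comm] at hX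
    have h2 : 0 < n ^ Fintype.card (T m) := by positivity
    have := Nat.le_of_mul_le_mul_right hX h2
    omega
  obtain ⟨i, hi⟩ := hyes ψ
  obtain ⟨M, hM1, hM2⟩ := h s₁ ψ hψ (reach_sat E s₀ _ hi)
  obtain ⟨r, hr1, hr2⟩ := hM1.sat hκ
  obtain ⟨I, hI1, hI2⟩ := hM1.exists_dep
  -- a good set
  set D := I.image (fun w => (w, ψ w)) with hD
  set Q := univ.filter (fun R : T m × Fin n → Bool => ∀ p ∈ D, R p = r p.1) with hQ
  have hcard := card_fixed D (fun p => r p.1)
  have h3 : D.card ≤ κ := card_image_le.trans hI1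
  have h4 : 2 ^ Fintype.card (T m × Fin n) ≤ Q.card * 2 ^ κ :=
    hcard.trans (Nat.mul_le_mul_left _ (Nat.pow_le_pow_right (by norm_num) h3))
  have h5 : Y.card < Q.card := by
    by_contra hle
    push Not at hle
    have h6 : 2 ^ κ' * 2 ^ Fintype.card (T m × Fin n) ≤
        (s * s * (2 * Fintype.card (T m × Fin n) + 1) ^ κ * 2 ^ κ) *
          2 ^ Fintype.card (T m × Fin n) := by
      calc 2 ^ κ' * 2 ^ Fintype.card (T m × Fin n) ≤ 2 ^ κ' * (Q.card * 2 ^ κ) :=
            Nat.mul_le_mul_left _ h4
        _ ≤ 2 ^ κ' * (Y.card * 2 ^ κ) :=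
            Nat.mul_le_mul_left _ (Nat.mul_le_mul_right _ hle)
        _ = (Y.card * 2 ^ κ') * 2 ^ κ := by ring
        _ ≤ (s * s * (2 * Fintype.card (T m × Fin n) + 1) ^ κ *
              2 ^ Fintype.card (T m × Fin n)) * 2 ^ κ := Nat.mul_le_mul_right _ hY
        _ = _ := by ring
    have h7 := Nat.le_of_mul_le_mul_right h6 (by positivity)
    omega
  obtain ⟨R, hR1, hR2⟩ := exists_mem_notMem_of_card_lt_card h5
  apply hM2 R hR2 (hno R s)
  refine hI2 r _ ?_ hr2
  intro v hv
  by_cases hvrt : v = rt m
  · rw [hvrt, rr_rt, hr1]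
  · rw [rr_ne hvrt]
    have := (mem_filter.mp hR1).2 (v, ψ v) (mem_image_of_mem (fun w => (w, ψ w)) hv)
    exact this.symm

end Pool.Agent.V7H47.MN
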