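import Pool.Agent.V7H42.PD.Final
import Pool.Agent.V7H47.MN.Defs
import Pool.Agent.V7H47.MN.Lift

/-!
From monotone branching programs for the automaton to monotone branching programs for consistent
labellings of the ternary tree.
-/

set_option autoImplicit false

namespace Pool.Agent.V7H47.MN

open Pool.Agent.V7H42.PD

/-! ### the padded template -/

/-- the template, followed by `p` letters without effect -/
noncomputable def tpl (n m p : ℕ) : List ((T m × J n) ⊕ Lt) :=
  full n m ++ List.replicate p (.inr .s)

theorem length_tpl (n m p : ℕ) : (tpl n m p).length = (full n m).length + p := by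
  simp [tpl]

theorem run_pad (p : ℕ) (st : List Bool) :
    run (some ((false, false), st)) (List.replicate p Lt.s) = some ((false, false), st) := by
  induction p with
  | zero => rfl
  | succ p ih =>
    rw [List.replicate_succ, run_cons, next_s]
    exact ih

theorem map_fill_pad {n m : ℕ} (p : ℕ) (μ : T m × J n → Bool) :
    (List.replicate p (.inr .s : (T m × J n) ⊕ Lt)).map (fill μ) = List.replicate p Lt.s := by
  rw [List.map_replicate]; rfl

theorem run_full {n m : ℕ} (μ : T m × J n → Bool) (r : (Bool × Bool) × List Bool) :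
    run (some (aut.start, [])) ((full n m).map (fill μ)) = some r ↔
      Good m μ 0 ∧ r = ((false, false), []) :=
  run_template m μ 0 true [] r

theorem accepts_tpl {n m p : ℕ} (μ : T m × J n → Bool) :
    aut.Accepts ((tpl n m p).map (fill μ)) ↔ Good m μ 0 := by
  have h1 : ∀ r, ((tpl n m p).map (fill μ)).foldl aut.next (some (aut.start, [])) = some r ↔
      Good m μ 0 ∧ r = ((false, false), []) := by
    intro r
    show run _ _ = _ ↔ _
    rw [tpl, List.map_append, run_append, map_fill_pad]
    rcases h : run (some (aut.start, [])) ((full n m).map (fill μ)) with _ | r₀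
    · rw [run_none]
      constructor
      · intro h'; exact absurd h' (by simp)
      · rintro ⟨h', _⟩
        have := (run_full μ ((false, false), [])).2 ⟨h', rfl⟩
        rw [h] at this
        exact absurd this (by simp)
    · obtain ⟨h2, rfl⟩ := (run_full μ r₀).1 h
      rw [run_pad]
      constructor
      · intro h'
        injection h' with h'
        exact ⟨h2, h'.symm⟩
      · rintro ⟨_, rfl⟩; rfl
  constructor
  · rintro ⟨q, s, h2, _⟩
    exact ((h1 _).1 h2).1
  · intro h
    exact ⟨(false, false), [], (h1 _).2 ⟨h, rfl⟩, Set.mem_univ _⟩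

theorem once_tpl (n m p : ℕ) : Once (tpl n m p) := by
  unfold Once tpl
  rw [List.pairwise_append]
  refine ⟨once_full n m, ?_, ?_⟩
  · rw [List.pairwise_replicate]
    right
    intro k h; simp at h
  · intro a _ b hb k _
    rw [List.eq_of_mem_replicate hb]
    simp

theorem once_get_tpl {n m p : ℕ} {i i' : Fin (tpl n m p).length} {k : T m × J n}
    (h : (tpl n m p).get i = .inl k) (h' : (tpl n m p).get i' = .inl k) : i = i' := by
  have h1 := List.pairwise_iff_getElem.1 (once_tpl n m p)
  rcases lt_trichotomy i i' with hlt | heq | hgt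
  · exact absurd h' (h1 i i' i.isLt i'.isLt hlt k h)
  · exact heq
  · exact absurd h (h1 i' i i'.isLt i.isLt hgt k h')

/-! ### the inputs -/

/-- the word with partial information: the items in `x` may be chosen -/
def part {n m p : ℕ} (x : T m × J n → Prop) (i : Fin (tpl n m p).length) : Set Lt :=
  match (tpl n m p).get i with
  | .inl k => {a | a = .s ∨ (a = .c ∧ x k)}
  | .inr a => {a}

theorem part_nonempty {n m p : ℕ} (x : T m × J n → Prop) (i : Fin (tpl n m p).length) :
    (part x i).Nonempty := by
  unfold part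
  rcases (tpl n m p).get i with k | a
  · exact ⟨.s, Or.inl rfl⟩
  · exact ⟨a, rfl⟩

theorem exists_word_iff {n m p : ℕ} (x : T m × J n → Prop) :
    (∃ w : Fin (tpl n m p).length → Lt, (∀ i, w i ∈ part x i) ∧ aut.Accepts (List.ofFn w)) ↔
      ∃ μ : T m × J n → Bool, (∀ k, μ k = true → x k) ∧ Good m μ 0 := by
  classical
  have hfn : ∀ μ : T m × J n → Bool,
      List.ofFn (fun i => fill μ ((tpl n m p).get i)) = (tpl n m p).map (fill μ) := by
    intro μ
    rw [show (fun i => fill μ ((tpl n m p).get i)) = fill μ ∘ (tpl n m p).get from rfl,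
      ← List.map_ofFn, List.ofFn_get]
  constructor
  · rintro ⟨w, h1, h2⟩
    set μ : T m × J n → Bool := fun k =>
      decide (∃ i, (tpl n m p).get i = .inl k ∧ w i = .c) with hμ
    have hw : w = fun i => fill μ ((tpl n m p).get i) := by
      funext i
      have h3 := h1 i
      unfold part at h3
      rcases hi : (tpl n m p).get i with k | a
      · rw [hi] at h3
        show w i = mkLetter (μ k)
        rcases h3 with h3 | ⟨h3, _⟩
        · have : μ k = false := by
            simp only [hμ, decide_eq_false_iff_not]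
            rintro ⟨i', h4, h5⟩
            rw [once_get_tpl h4 hi, h3] at h5
            exact absurd h5 (by decide)
          rw [this, h3]; rfl
        · have : μ k = true := by
            simp only [hμ, decide_eq_true_eq]
            exact ⟨i, hi, h3⟩
          rw [this, h3]; rfl
      · rw [hi] at h3
        exact h3
    refine ⟨μ, ?_, ?_⟩
    · intro k hk
      simp only [hμ, decide_eq_true_eq] at hk
      obtain ⟨i, h3, h4⟩ := hk
      have h5 := h1 i
      unfold part at h5
      rw [h3, h4] at h5
      rcases h5 with h5 | h5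
      · exact absurd h5 (by decide)
      · exact h5.2
    · rw [hw, hfn] at h2
      exact (accepts_tpl μ).1 h2
  · rintro ⟨μ, h1, h2⟩
    refine ⟨fun i => fill μ ((tpl n m p).get i), ?_, ?_⟩
    · intro i
      show fill μ ((tpl n m p).get i) ∈ part x i
      unfold part
      rcases hi : (tpl n m p).get i with k | a
      · show mkLetter (μ k) = Lt.s ∨ (mkLetter (μ k) = Lt.c ∧ x k)
        rcases hμ : μ k with _ | _
        · exact Or.inl rfl
        · exact Or.inr ⟨rfl, h1 k hμ⟩
      · rfl
    · rw [hfn]
      exact (accepts_tpl μ).2 h2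

/-! ### the network -/

section Net

variable {n m p : ℕ} {S : Type} (B : NBP (Fin (tpl n m p).length) Lt S)

/-- the edges of the network: the tests on a word with partial information given by the items -/
def netE : S → S → Option (T m × J n) → Prop := fun u v y => match y with
  | none => B.edge u v none ∨ ∃ i X, B.edge u v (some (i, X)) ∧
      ((∃ a, (tpl n m p).get i = .inr a ∧ a ∈ X) ∨
        (∃ k, (tpl n m p).get i = .inl k ∧ Lt.s ∈ X))
  | some k => ∃ i X, B.edge u v (some (i, X)) ∧ (tpl n m p).get i = .inl k ∧ Lt.c ∈ X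

variable {B}

theorem reach_of_walk {x : T m × J n → Prop} {s₀ s t : S}
    {l : List (Fin (tpl n m p).length × Set Lt)} (h : B.Walk s t l)
    (hp : ∀ y ∈ l, ∃ a ∈ part x y.1, a ∈ y.2) :
    ∀ i, Reach (netE B) s₀ x i s → ∃ j, Reach (netE B) s₀ x j t := by
  induction h with
  | nil s => intro i hi; exact ⟨i, hi⟩
  | free h _ ih =>
    intro i hi
    exact ih hp (i + 1) (Or.inr ⟨_, hi, Or.inl (Or.inl h)⟩)
  | @test s t u y l h _ ih =>
    intro i hi
    apply ih (fun z hz => hp z (List.mem_cons_of_mem _ hz)) (i + 1)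
    obtain ⟨j, X⟩ := y
    obtain ⟨a, ha1, ha2⟩ := hp (j, X) (List.mem_cons_self ..)
    simp only at ha1 ha2
    right
    refine ⟨_, hi, ?_⟩
    unfold part at ha1
    rcases hj : (tpl n m p).get j with k | b
    · rw [hj] at ha1
      rcases ha1 with ha1 | ⟨ha1, hx⟩
      · left; right
        exact ⟨j, X, h, Or.inr ⟨k, hj, ha1 ▸ ha2⟩⟩
      · right
        exact ⟨k, ⟨j, X, h, hj, ha1 ▸ ha2⟩, hx⟩
    · rw [hj] at ha1
      have hab : a = b := ha1
      left; right
      exact ⟨j, X, h, Or.inl ⟨b, hj, hab ▸ ha2⟩⟩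

theorem walk_of_reach {x : T m × J n → Prop} {s₀ : S} : ∀ (i : ℕ) (t : S),
    Reach (netE B) s₀ x i t → ∃ l, B.Walk s₀ t l ∧ ∀ y ∈ l, ∃ a ∈ part x y.1, a ∈ y.2
  | 0, t => by
    intro h
    have : t = s₀ := h
    subst this
    exact ⟨[], .nil _, by simp⟩
  | i + 1, t => by
    rintro (h | ⟨u, h, he⟩)
    · exact walk_of_reach i t h
    · obtain ⟨l, h1, h2⟩ := walk_of_reach i u h
      rcases he with (he | ⟨j, X, he, hj⟩) | ⟨k, ⟨j, X, he, hj, hX⟩, hx⟩
      · refine ⟨l ++ [], h1.append (.free he (.nil _)), ?_⟩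
        rw [List.append_nil]; exact h2
      · refine ⟨l ++ [(j, X)], h1.append (.test he (.nil _)), fun y hy => ?_⟩
        rcases List.mem_append.1 hy with hy | hy
        · exact h2 y hy
        · rw [List.mem_singleton] at hy
          subst hy
          show ∃ a ∈ part x j, a ∈ X
          unfold part
          rcases hj with ⟨a, hj, ha⟩ | ⟨k, hj, ha⟩
          · rw [hj]; exact ⟨a, rfl, ha⟩
          · rw [hj]; exact ⟨.s, Or.inl rfl, ha⟩
      · refine ⟨l ++ [(j, X)], h1.append (.test he (.nil _)), fun y hy => ?_⟩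
        rcases List.mem_append.1 hy with hy | hy
        · exact h2 y hy
        · rw [List.mem_singleton] at hy
          subst hy
          show ∃ a ∈ part x j, a ∈ X
          unfold part
          rw [hj]
          exact ⟨.c, Or.inr ⟨rfl, hx⟩, hX⟩

theorem reach_iff (hB : MRecognizes B aut) (x : T m × J n → Prop) :
    (∃ i, Reach (netE B) B.source x i B.sink) ↔
      ∃ μ : T m × J n → Bool, (∀ k, μ k = true → x k) ∧ Good m μ 0 := by
  rw [← exists_word_iff (p := p), ← hB (part x) (part_nonempty x)]
  constructor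
  · rintro ⟨i, hi⟩
    exact walk_of_reach i _ hi
  · rintro ⟨l, h1, h2⟩
    exact reach_of_walk h1 h2 0 rfl

end Net

/-! ### the two families of inputs -/

theorem tree_ind : ∀ (m : ℕ) (P : T m → Prop),
    (∀ v, (∀ c k, par m c = some (v, k) → P c) → P v) → ∀ v, P v
  | 0, P, h, () => h () fun c k hc => by simp [par] at hc
  | m + 1, P, h, v => by
    have hsub : ∀ i u, P (sub i u) := by
      intro i
      apply tree_ind m (fun u => P (sub i u))
      intro u hu
      apply h
      intro c k hc
      rcases eq_rt_or_sub c with rfl | ⟨i', u', rfl⟩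
      · rw [par_rt] at hc; exact absurd hc (by simp)
      · rcases hp : par m u' with _ | ⟨q, l⟩
        · obtain rfl := eq_rt_of_par hp
          rw [par_sub_rt] at hc
          simp only [Option.some.injEq, Prod.mk.injEq] at hc
          exact absurd hc.1.symm (sub_ne_rt _ _)
        · rw [par_sub_some i' hp] at hc
          simp only [Option.some.injEq, Prod.mk.injEq] at hc
          obtain ⟨e1, e2⟩ := sub_inj hc.1
          subst e1; subst e2
          exact hu u' l hp
    rcases eq_rt_or_sub v with rfl | ⟨i, u, rfl⟩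
    · apply h
      intro c k hc
      rcases eq_rt_or_sub c with rfl | ⟨i', u', rfl⟩
      · rw [par_rt] at hc; exact absurd hc (by simp)
      · exact hsub i' u'
    · exact hsub i u

theorem not_good_no {n m : ℕ} (R : T m × Fin n → Bool) (μ : T m × J n → Bool)
    (h : ∀ k, μ k = true → no R k) : ¬ Good m μ 0 := by
  intro hg
  obtain ⟨φ, h1, h2, h3⟩ := hg.exists_items
  have key : ∀ v : T m, v ≠ rt m ∧ R (v, (φ v).1) = true := by
    apply tree_ind
    intro v hv
    have h4 : no R (v, φ v) := h (v, φ v) ((h1 v (φ v)).2 rfl)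
    apply h4
    intro c k hc
    have h5 := (hv c k hc).2
    rwa [h2 c v k hc] at h5
  exact (key (rt m)).1 rfl

theorem good_yes {n m : ℕ} (hn : 0 < n) (ψ : T m → Fin n) :
    ∃ μ : T m × J n → Bool, (∀ k, μ k = true → yes ⟨0, hn⟩ ψ k) ∧ Good m μ 0 :=
  ⟨marks ψ ⟨0, hn⟩, fun k hk => (mem_marks ψ ⟨0, hn⟩ k.1 k.2).1 hk, good_marks m ψ ⟨0, hn⟩⟩

/-- **The lower bound in general form.** -/
theorem lower {n m p : ℕ} (hn : 0 < n) {S : Type} [Fintype S]
    {B : NBP (Fin (tpl n m p).length) Lt S} (hB : MRecognizes B aut)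
    (κ κ' Δ M' : ℕ) (hκ : κ < m) (hΔ : 0 < Δ) (hκ' : 1 ≤ κ')
    (hM' : 128 * (κ + 4) * (κ' + 1) ≤ M') (hM : Δ * 2 ^ κ * M' ≤ n)
    (hbob : Fintype.card S * Fintype.card S * (2 * Fintype.card (T m × Fin n) + 1) ^ κ * 2 ^ κ
      < 2 ^ κ') :
    Δ ^ κ ≤ Fintype.card S * Fintype.card S :=
  lift_bound (netE B) B.source B.sink ⟨0, hn⟩
    (fun ψ => (reach_iff hB _).2 (good_yes hn ψ))
    (fun R i hi => by
      obtain ⟨μ, h1, h2⟩ := (reach_iff hB (no R)).1 ⟨i, hi⟩
      exact not_good_no R μ h1 h2)
    κ κ' Δ M' hκ hΔ hκ' hM' hM hbob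

end Pool.Agent.V7H47.MN
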