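import Pool.Agent.V7H47.MN.Bridge

/-!
The choice of the parameters.
-/

set_option autoImplicit false

namespace Pool.Agent.V7H47.MN

open Pool.Agent.V7H42.PD

theorem card_T : ∀ m : ℕ, Fintype.card (T m) ≤ 4 ^ m
  | 0 => by
    show Fintype.card Unit ≤ _
    simp
  | m + 1 => by
    have h := card_T m
    have h1 : Fintype.card (T (m + 1)) = 3 * Fintype.card (T m) + 1 := by
      show Fintype.card (Option (Fin 3 × T m)) = _
      rw [Fintype.card_option, Fintype.card_prod, Fintype.card_fin]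
    have h2 : 1 ≤ 4 ^ m := Nat.one_le_pow _ _ (by norm_num)
    rw [h1, pow_succ]
    omega

theorem growth : ∀ m : ℕ, 23 ≤ m → 128 * (m + 3) * (m * (6 * m + 3) + 1) ≤ 2 ^ (m + 1) := by
  intro m hm
  induction m, hm using Nat.le_induction with
  | base => norm_num
  | succ m hm ih =>
    have h1 : 128 * (m + 1 + 3) * ((m + 1) * (6 * (m + 1) + 3) + 1) ≤
        (128 * (m + 3) * (m * (6 * m + 3) + 1)) * 2 := by
      obtain ⟨k, rfl⟩ := Nat.exists_eq_add_of_le hm
      have h2 : (128 * (23 + k + 3) * ((23 + k) * (6 * (23 + k) + 3) + 1)) * 2 =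
          128 * (23 + k + 1 + 3) * ((23 + k + 1) * (6 * (23 + k + 1) + 3) + 1) +
            (768 * k ^ 3 + 53376 * k ^ 2 + 1230080 * k + 9395840) := by ring
      rw [h2]
      exact Nat.le_add_right _ _
    calc 128 * (m + 1 + 3) * ((m + 1) * (6 * (m + 1) + 3) + 1) ≤
        (128 * (m + 3) * (m * (6 * m + 3) + 1)) * 2 := h1
      _ ≤ 2 ^ (m + 1) * 2 := Nat.mul_le_mul_right _ ih
      _ = 2 ^ (m + 1 + 1) := (pow_succ _ _).symm

/-- the bound for the template with parameters chosen -/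
theorem lower_pow {m p : ℕ} (hm : 23 ≤ m) {S : Type} [Fintype S]
    {B : NBP (Fin (tpl (2 ^ (3 * m)) m p).length) Lt S} (hB : MRecognizes B aut) :
    2 ^ (m * (m - 1) / 2) ≤ Fintype.card S := by
  set s := Fintype.card S with hs
  have heven : 2 * (m * (m - 1) / 2) = m * (m - 1) := by
    have h : Even (m * (m - 1)) := by
      rcases Nat.even_or_odd m with h | h
      · exact h.mul_right _
      · have : Even (m - 1) := by
          obtain ⟨k, hk⟩ := h
          exact ⟨k, by omega⟩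
        exact this.mul_left _
    exact Nat.mul_div_cancel' h.two_dvd
  have key : (2 ^ m) ^ (m - 1) ≤ s * s := by
    by_contra hcon
    push Not at hcon
    have hn : 0 < 2 ^ (3 * m) := by positivity
    have := lower hn hB (m - 1) (m * (6 * m + 3)) (2 ^ m)
      (128 * ((m - 1) + 4) * (m * (6 * m + 3) + 1)) (by omega) (by positivity)
      (Nat.mul_pos (by omega) (by omega)) le_rfl
      (by
        have h1 := growth m hm
        have h2 : m - 1 + 4 = m + 3 := by omega
        rw [h2]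
        calc 2 ^ m * 2 ^ (m - 1) * (128 * (m + 3) * (m * (6 * m + 3) + 1))
            ≤ 2 ^ m * 2 ^ (m - 1) * 2 ^ (m + 1) := Nat.mul_le_mul_left _ h1
          _ = 2 ^ (3 * m) := by
            rw [← pow_add, ← pow_add]
            congr 1
            omega)
      (by
        rw [← hs]
        have hW : 2 * Fintype.card (T m × Fin (2 ^ (3 * m))) + 1 ≤ 2 ^ (5 * m + 2) := by
          rw [Fintype.card_prod, Fintype.card_fin]
          have h1 := card_T m
          have h2 : (4:ℕ) ^ m = 2 ^ (2 * m) := by rw [pow_mul]; norm_num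
          rw [h2] at h1
          have h3 : Fintype.card (T m) * 2 ^ (3 * m) ≤ 2 ^ (5 * m) := by
            calc Fintype.card (T m) * 2 ^ (3 * m) ≤ 2 ^ (2 * m) * 2 ^ (3 * m) :=
                  Nat.mul_le_mul_right _ h1
              _ = 2 ^ (5 * m) := by rw [← pow_add]; congr 1; omega
          have h4 : 1 ≤ 2 ^ (5 * m) := Nat.one_le_two_pow
          have h5 : 2 ^ (5 * m + 2) = 4 * 2 ^ (5 * m) := by rw [pow_add]; ring
          omega
        have hpos : 0 < (2 ^ (5 * m + 2)) ^ (m - 1) * 2 ^ (m - 1) := by positivity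
        calc s * s * (2 * Fintype.card (T m × Fin (2 ^ (3 * m))) + 1) ^ (m - 1) * 2 ^ (m - 1)
            ≤ s * s * (2 ^ (5 * m + 2)) ^ (m - 1) * 2 ^ (m - 1) :=
              Nat.mul_le_mul_right _ (Nat.mul_le_mul_left _ (Nat.pow_le_pow_left hW _))
          _ = s * s * ((2 ^ (5 * m + 2)) ^ (m - 1) * 2 ^ (m - 1)) := by ring
          _ < (2 ^ m) ^ (m - 1) * ((2 ^ (5 * m + 2)) ^ (m - 1) * 2 ^ (m - 1)) :=
              Nat.mul_lt_mul_of_pos_right hcon hpos
          _ = 2 ^ ((m - 1) * (6 * m + 3)) := by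
              rw [← pow_mul, ← pow_mul, ← pow_add, ← pow_add]
              congr 1
              ring
          _ ≤ 2 ^ (m * (6 * m + 3)) :=
              Nat.pow_le_pow_right (by norm_num) (Nat.mul_le_mul_right _ (by omega)))
    rw [← hs] at this
    omega
  have h1 : (2 ^ (m * (m - 1) / 2)) * (2 ^ (m * (m - 1) / 2)) ≤ s * s := by
    rw [← pow_add, ← two_mul, heven, pow_mul]
    exact key
  exact Nat.mul_self_le_mul_self_iff.mp h1

theorem length_le {m : ℕ} (hm : 4 ≤ m) :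
    (full (2 ^ (3 * m)) m).length ≤ 2 ^ (18 * m) := by
  have h1 := length_tmp (2 ^ (3 * m)) m
  set n := 2 ^ (3 * m) with hn
  have hn1 : 1 ≤ n := Nat.one_le_two_pow
  have h3 : (full n m).length = (tmp n m).length + 1 := rfl
  have h2 : n ^ 4 * (4 * n + 1) + 1 ≤ 8 * n ^ 5 := by
    have e1 : 1 ≤ n ^ 4 := Nat.one_le_pow _ _ hn1
    have e2 : n ^ 4 ≤ n ^ 5 := Nat.pow_le_pow_right hn1 (by norm_num)
    have e3 : n ^ 4 * (4 * n + 1) = 4 * n ^ 5 + n ^ 4 := by ring
    omega
  have h4 : 3 ^ (m + 1) ≤ 2 ^ (2 * m + 2) := by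
    calc 3 ^ (m + 1) ≤ 4 ^ (m + 1) := Nat.pow_le_pow_left (by norm_num) _
      _ = 2 ^ (2 * m + 2) := by
        rw [show (4:ℕ) = 2 ^ 2 by norm_num, ← pow_mul]
        congr 1
  have h5 : 3 ^ (m + 1) * (n ^ 4 * (4 * n + 1) + 1) ≤ 2 ^ (17 * m + 5) := by
    calc 3 ^ (m + 1) * (n ^ 4 * (4 * n + 1) + 1) ≤ 2 ^ (2 * m + 2) * (8 * n ^ 5) :=
          Nat.mul_le_mul h4 h2
      _ = 2 ^ (17 * m + 5) := by
          rw [hn, show (8:ℕ) = 2 ^ 3 by norm_num, ← pow_mul, ← pow_add, ← pow_add]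
          congr 1
          ring
  have h6 : 2 ≤ n ^ 4 * (4 * n + 1) + 1 := by
    have : 1 ≤ n ^ 4 * (4 * n + 1) := Nat.mul_pos (by positivity) (by omega)
    omega
  have h7 : 2 * (2 ^ (17 * m + 4)) = 2 ^ (17 * m + 5) := by rw [pow_succ 2 (17 * m + 4)]; ring
  have h8 : 2 ^ (17 * m + 4) ≤ 2 ^ (18 * m) := Nat.pow_le_pow_right (by norm_num) (by omega)
  rw [h3]
  omega

/-- **The lower bound for all lengths.** -/
theorem lower_all (N : ℕ) (hN : 2 ^ 432 ≤ N) (S : Type) [Fintype S] (B : NBP (Fin N) Lt S)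
    (hB : MRecognizes B aut) : 2 ^ ((Nat.log 2 N) ^ 2 / 1000) ≤ Fintype.card S := by
  set x := Nat.log 2 N with hx
  have hx1 : 432 ≤ x := by
    rw [hx]
    exact (Nat.le_log_iff_pow_le (by norm_num) (by
      have : 0 < 2 ^ 432 := by positivity
      omega)).2 hN
  set m := x / 18 with hm
  have hm1 : 24 ≤ m := by rw [hm]; omega
  have hm2 : 18 * m ≤ x := by rw [hm]; omega
  have hm3 : x ≤ 18 * m + 17 := by rw [hm]; omega
  have hlen : (full (2 ^ (3 * m)) m).length ≤ N := by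
    calc (full (2 ^ (3 * m)) m).length ≤ 2 ^ (18 * m) := length_le (by omega)
      _ ≤ 2 ^ x := Nat.pow_le_pow_right (by norm_num) hm2
      _ ≤ N := Nat.pow_log_le_self 2 (by
        have : 0 < 2 ^ 432 := by positivity
        omega)
  have hN' : (tpl (2 ^ (3 * m)) m (N - (full (2 ^ (3 * m)) m).length)).length = N := by
    rw [length_tpl]; omega
  have key : 2 ^ (m * (m - 1) / 2) ≤ Fintype.card S := by
    clear_value x m
    generalize hp : N - (full (2 ^ (3 * m)) m).length = p at hN'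
    clear hp hlen hx hN
    subst hN'
    exact lower_pow (by omega) hB
  refine le_trans (Nat.pow_le_pow_right (by norm_num) ?_) key
  have h1 : x ^ 2 ≤ 500 * (m * (m - 1)) := by
    obtain ⟨k, hk⟩ : ∃ k, m = k + 1 := ⟨m - 1, by omega⟩
    rw [hk] at hm3 hm1 ⊢
    rw [Nat.add_sub_cancel]
    calc x ^ 2 ≤ (18 * (k + 1) + 17) ^ 2 := Nat.pow_le_pow_left hm3 2
      _ ≤ 500 * ((k + 1) * k) := by nlinarith [hm1]
  omega

/-- **No polynomial bound.** -/
theorem super_all : ¬ ∃ e : ℕ, ∀ N : ℕ, ∃ (S : Type) (_ : Fintype S) (B : NBP (Fin N) Lt S),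
    MRecognizes B aut ∧ Fintype.card S ≤ N ^ e + e := by
  rintro ⟨e, he⟩
  set x := 2000 * (e + 1) with hx
  obtain ⟨S, _, B, hB, hc⟩ := he (2 ^ x)
  have h1 := lower_all (2 ^ x) (Nat.pow_le_pow_right (by norm_num) (by omega)) S B hB
  rw [Nat.log_pow (by norm_num)] at h1
  have h2 : x ^ 2 / 1000 = 4000 * (e + 1) ^ 2 := by
    rw [hx]
    have : (2000 * (e + 1)) ^ 2 = 1000 * (4000 * (e + 1) ^ 2) := by ring
    rw [this, Nat.mul_div_cancel_left _ (by norm_num)]
  rw [h2] at h1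
  have h3 : (2 ^ x) ^ e + e < 2 ^ (4000 * (e + 1) ^ 2) := by
    rw [← pow_mul]
    have h4 : e < 2 ^ (x * e + 1) := by
      calc e < 2 ^ e := Nat.lt_two_pow_self
        _ ≤ 2 ^ (x * e + 1) := Nat.pow_le_pow_right (by norm_num) (by
          have : 1 * e ≤ x * e := Nat.mul_le_mul_right _ (by omega)
          omega)
    have h5 : 2 ^ (x * e) ≤ 2 ^ (x * e + 1) := Nat.pow_le_pow_right (by norm_num) (by omega)
    have h6 : 2 ^ (x * e + 1) + 2 ^ (x * e + 1) = 2 ^ (x * e + 2) := by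
      rw [pow_succ 2 (x * e + 1)]; ring
    have h7 : 2 ^ (x * e + 2) ≤ 2 ^ (4000 * (e + 1) ^ 2) := by
      apply Nat.pow_le_pow_right (by norm_num)
      rw [hx]
      nlinarith
    omega
  omega

end Pool.Agent.V7H47.MN
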